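import Pool.Agent.Helper38.Weiss.Api
import Pool.Agent.Helper36.Weiss.U2

/-! A finite labelling with small fibres and null boundaries. -/

open Set Filter Topology MeasureTheory

namespace Pool.Agent.Helper38.Weiss

open Pool.Agent.Helper36.Weiss (nf_inter nf_biInter)

theorem exists_label {X : Type*} [MetricSpace X] [CompactSpace X] [MeasurableSpace X]
    [BorelSpace X] {F : X → X} (hF : Continuous F) (μ : Measure X) [IsProbabilityMeasure μ]
    (hinv : MeasurePreserving F μ μ) {ε : ℝ} (hε : 0 < ε) :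
    ∃ n : ℕ, 0 < n ∧ ∃ κ : X → Fin n, Measurable κ ∧ (∀ x y, κ x = κ y → dist x y < ε) ∧
      ∀ (L : ℕ) (b : Fin L → Fin n), μ (frontier {x : X | ∀ s : Fin L, κ (F^[s] x) = b s}) = 0 := by
  classical
  have h1 : ∀ x : X, ∃ r ∈ Ioo (ε / 4) (ε / 2), μ (frontier (Metric.ball x r)) = 0 := by
    intro x
    obtain ⟨r, hr, h⟩ := exists_null_frontier_thickening μ {x} (show ε / 4 < ε / 2 by linarith)
    exact ⟨r, hr, by rwa [Metric.thickening_singleton] at h⟩
  choose r hr hnull using h1
  obtain ⟨t, -, ht⟩ := (isCompact_univ (X := X)).elim_nhds_subcover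
    (fun x => Metric.ball x (r x)) (fun x _ => Metric.ball_mem_nhds x (by
      have := (hr x).1
      linarith))
  let m := t.card
  let e : Fin m ≃ t := t.equivFin.symm
  let B : ℕ → Set X := fun i => if h : i < m then Metric.ball (e ⟨i, h⟩ : X) (r (e ⟨i, h⟩)) else ∅
  have hex : ∀ x : X, ∃ i : ℕ, x ∈ B i := by
    intro x
    have hx := ht (mem_univ x)
    simp only [mem_iUnion] at hx
    obtain ⟨y, hy, hxy⟩ := hx
    refine ⟨e.symm ⟨y, hy⟩, ?_⟩
    simp only [B, Fin.is_lt, dite_true, Fin.eta, Equiv.apply_symm_apply]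
    exact hxy
  have hBlt : ∀ i x, x ∈ B i → i < m := by
    intro i x hx
    by_contra h
    simp [B, h] at hx
  have hfind : ∀ x, Nat.find (hex x) < m := fun x => hBlt _ x (Nat.find_spec (hex x))
  have hBnull : ∀ i, μ (frontier (B i)) = 0 := by
    intro i
    by_cases h : i < m
    · simp only [B, h, dite_true]
      exact hnull _
    · simp [B, h]
  have hBdiam : ∀ i x y, x ∈ B i → y ∈ B i → dist x y < ε := by
    intro i x y hx hy
    have h := hBlt i x hx
    simp only [B, h, dite_true, Metric.mem_ball] at hx hy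
    have h2 := (hr (e ⟨i, h⟩ : X)).2
    calc dist x y ≤ dist x (e ⟨i, h⟩ : X) + dist y (e ⟨i, h⟩ : X) := dist_triangle_right _ _ _
      _ < ε := by linarith
  let κ : X → Fin (m + 1) := fun x => ⟨Nat.find (hex x), (hfind x).trans (Nat.lt_succ_self m)⟩
  have hfib : ∀ b : Fin (m + 1), μ (frontier (κ ⁻¹' {b})) = 0 := by
    intro b
    have e1 : κ ⁻¹' {b} = B b ∩ ⋂ j ∈ Finset.range (b : ℕ), (B j)ᶜ := by
      ext x
      simp only [mem_preimage, mem_singleton_iff, mem_inter_iff, mem_iInter, Finset.mem_range,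
        mem_compl_iff, κ, Fin.ext_iff]
      rw [Nat.find_eq_iff]
    rw [e1]
    refine nf_inter (hBnull _) (nf_biInter _ _ fun j _ => ?_)
    rw [frontier_compl]
    exact hBnull j
  have hBmeas : ∀ i, MeasurableSet (B i) := by
    intro i
    by_cases h : i < m
    · simp only [B, h, dite_true]
      exact measurableSet_ball
    · simp [B, h]
  refine ⟨m + 1, Nat.succ_pos m, κ, ?_, ?_, ?_⟩
  · refine measurable_to_countable' fun b => ?_
    have e1 : κ ⁻¹' {b} = B b ∩ ⋂ j ∈ Finset.range (b : ℕ), (B j)ᶜ := by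
      ext x
      simp only [mem_preimage, mem_singleton_iff, mem_inter_iff, mem_iInter, Finset.mem_range,
        mem_compl_iff, κ, Fin.ext_iff]
      rw [Nat.find_eq_iff]
    rw [e1]
    exact (hBmeas _).inter (Finset.measurableSet_biInter _ fun j _ => (hBmeas j).compl)
  · intro x y hxy
    have h2 : Nat.find (hex x) = Nat.find (hex y) := by
      simpa [κ, Fin.ext_iff] using hxy
    refine hBdiam (Nat.find (hex x)) x y (Nat.find_spec (hex x)) ?_
    rw [h2]
    exact Nat.find_spec (hex y)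
  · intro L b
    have e2 : {x : X | ∀ s : Fin L, κ (F^[s] x) = b s} =
        ⋂ s ∈ (Finset.univ : Finset (Fin L)), (F^[(s : ℕ)]) ⁻¹' (κ ⁻¹' {b s}) := by
      ext x
      simp
    rw [e2]
    refine nf_biInter _ _ fun s _ => ?_
    have h3 : frontier ((F^[(s : ℕ)]) ⁻¹' (κ ⁻¹' {b s})) ⊆
        (F^[(s : ℕ)]) ⁻¹' (frontier (κ ⁻¹' {b s})) :=
      (hF.iterate s).frontier_preimage_subset _
    refine measure_mono_null h3 ?_
    rw [(hinv.iterate s).measure_preimage isClosed_frontier.measurableSet.nullMeasurableSet]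
    exact hfib _

end Pool.Agent.Helper38.Weiss
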