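import Pool.Agent.Helper38.Weiss.Defs

open Set Filter Topology MeasureTheory

namespace Pool.Agent.Helper38.Weiss

variable {α β γ δ : Type*}

theorem Leq.mono {U : Set α} {r : α → α → Prop} {V : Set β} {s : β → β → Prop} {c c' : ℝ}
    (h : Leq U r V s c) (hc : c ≤ c') : Leq U r V s c' := by
  intro m k hk E hE hE'
  obtain ⟨E', h1, h2, h3⟩ := h m k hk E hE hE'
  exact ⟨E', h1, h2, h3.trans (mul_le_mul_of_nonneg_right hc (by positivity))⟩

theorem Leq.trans {U : Set α} {r : α → α → Prop} {V : Set β} {s : β → β → Prop}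
    {W : Set γ} {t : γ → γ → Prop} {c d : ℝ} (hc : 0 ≤ c)
    (h : Leq U r V s c) (h' : Leq V s W t d) : Leq U r W t (c * d) := by
  intro m k hk E hE hE'
  obtain ⟨E₁, h1, h2, h3⟩ := h m k hk E hE hE'
  obtain ⟨E₂, h4, h5, h6⟩ := h' m k hk E₁ h1 h2
  refine ⟨E₂, h4, h5, h3.trans ?_⟩
  rw [mul_assoc]
  exact mul_le_mul_of_nonneg_left h6 hc

/-- A map that preserves conflicts. -/
theorem Leq.of_map {U : Set α} {r : α → α → Prop} {V : Set β} {s : β → β → Prop} (f : α → β)
    (hf : ∀ x ∈ U, f x ∈ V) (hrs : ∀ x ∈ U, ∀ y ∈ U, r x y → s (f x) (f y))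
    (hs : ∀ z ∈ V, ¬ s z z) : Leq U r V s 1 := by
  classical
  intro m k hk E hE hE'
  refine ⟨E.image (fun x => (f x.1, x.2)), ?_, ?_, ?_⟩
  · intro z hz
    obtain ⟨x, hx, rfl⟩ := Finset.mem_image.1 hz
    exact hf _ (hE x hx)
  · intro z hz z' hz' hne
    obtain ⟨x, hx, rfl⟩ := Finset.mem_image.1 hz
    obtain ⟨y, hy, rfl⟩ := Finset.mem_image.1 hz'
    have hxy : x ≠ y := by
      rintro rfl
      exact hne rfl
    rcases hE' x hx y hy hxy with h | h
    · exact Or.inl (hrs _ (hE x hx) _ (hE y hy) h)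
    · exact Or.inr h
  · rw [one_mul, Finset.card_image_of_injOn]
    intro x hx y hy hxy
    by_contra hne
    simp only [Prod.mk.injEq] at hxy
    rcases hE' x hx y hy hne with h | h
    · have := hrs _ (hE x hx) _ (hE y hy) h
      rw [hxy.1] at this
      exact hs _ (hf _ (hE y hy)) this
    · rw [hxy.2] at h
      exact hk _ h

theorem Leq.refl (U : Set α) (r : α → α → Prop) : Leq U r U r 1 := by
  intro m k hk E hE hE'
  exact ⟨E, hE, hE', by simp⟩

/-- Inclusion. -/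
theorem Leq.incl {U V : Set α} {r s : α → α → Prop} (hUV : U ⊆ V)
    (hrs : ∀ x ∈ U, ∀ y ∈ U, r x y → s x y) : Leq U r V s 1 := by
  intro m k hk E hE hE'
  refine ⟨E, fun x hx => hUV (hE x hx), fun x hx y hy hne => ?_, by simp⟩
  rcases hE' x hx y hy hne with h | h
  · exact Or.inl (hrs _ (hE x hx) _ (hE y hy) h)
  · exact Or.inr h

/-- Finite unions. -/
theorem Leq.iUnion {ι : Type*} (I : Finset ι) {U : Set α} {r : α → α → Prop} {V : Set β}
    {s : β → β → Prop} (A : ι → Set α) (hU : ∀ x ∈ U, ∃ i ∈ I, x ∈ A i) (c : ι → ℝ)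
    (hc : ∀ i ∈ I, 0 ≤ c i) (h : ∀ i ∈ I, Leq (A i) r V s (c i)) :
    Leq U r V s (∑ i ∈ I, c i) := by
  classical
  intro m k hk E hE hE'
  have h1 : ∀ i ∈ I, ∃ E' : Finset (β × Fin m), (∀ x ∈ E', x.1 ∈ V) ∧
        (∀ x ∈ E', ∀ y ∈ E', x ≠ y → s x.1 y.1 ∨ k x.2 y.2) ∧
        ((E.filter (fun x => x.1 ∈ A i)).card : ℝ) ≤ c i * E'.card := by
    intro i hi
    refine h i hi m k hk (E.filter (fun x => x.1 ∈ A i)) ?_ ?_
    · intro x hx
      exact (Finset.mem_filter.1 hx).2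
    · intro x hx y hy hne
      exact hE' x (Finset.mem_filter.1 hx).1 y (Finset.mem_filter.1 hy).1 hne
  choose! E₁ h2 h3 h4 using h1
  rcases I.eq_empty_or_nonempty with rfl | hI
  · refine ⟨∅, by simp, by simp, ?_⟩
    have : E = ∅ := by
      rw [Finset.eq_empty_iff_forall_notMem]
      intro x hx
      obtain ⟨i, hi, -⟩ := hU _ (hE x hx)
      simp at hi
    simp [this]
  obtain ⟨i₀, hi₀, hmax⟩ := Finset.exists_max_image I (fun i => (E₁ i).card) hI
  refine ⟨E₁ i₀, h2 i₀ hi₀, h3 i₀ hi₀, ?_⟩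
  have h5 : E ⊆ I.biUnion (fun i => E.filter (fun x => x.1 ∈ A i)) := by
    intro x hx
    obtain ⟨i, hi, hxi⟩ := hU _ (hE x hx)
    exact Finset.mem_biUnion.2 ⟨i, hi, Finset.mem_filter.2 ⟨hx, hxi⟩⟩
  have h6 : (E.card : ℝ) ≤ ∑ i ∈ I, ((E.filter (fun x => x.1 ∈ A i)).card : ℝ) := by
    exact_mod_cast (Finset.card_le_card h5).trans Finset.card_biUnion_le
  refine h6.trans ?_
  rw [Finset.sum_mul]
  refine Finset.sum_le_sum (fun i hi => (h4 i hi).trans ?_)
  exact mul_le_mul_of_nonneg_left (by exact_mod_cast hmax i hi) (hc i hi)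

/-- Labels: `f` preserves the conflicts of points with equal labels. -/
theorem Leq.classes {ι : Type*} [Fintype ι] {U : Set α} {r : α → α → Prop} {V : Set β}
    {s : β → β → Prop} (κ : α → ι) (f : α → β) (hf : ∀ x ∈ U, f x ∈ V)
    (hrs : ∀ x ∈ U, ∀ y ∈ U, κ x = κ y → r x y → s (f x) (f y)) (hs : ∀ z ∈ V, ¬ s z z) :
    Leq U r V s (Fintype.card ι) := by
  have h := Leq.iUnion (Finset.univ : Finset ι) (U := U) (r := r) (V := V) (s := s)
    (fun i => {x | x ∈ U ∧ κ x = i}) (fun x hx => ⟨κ x, Finset.mem_univ _, hx, rfl⟩)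
    (fun _ => (1 : ℝ)) (fun _ _ => zero_le_one) (fun i _ => Leq.of_map f
      (fun x hx => hf x hx.1) (fun x hx y hy => hrs x hx.1 y hy.1 (hx.2.trans hy.2.symm)) hs)
  simpa using h

/-- Finite sets of labels used on `U`. -/
theorem Leq.classes' {ι : Type*} (I : Finset ι) {U : Set α} {r : α → α → Prop} {V : Set β}
    {s : β → β → Prop} (κ : α → ι) (hκ : ∀ x ∈ U, κ x ∈ I) (f : α → β) (hf : ∀ x ∈ U, f x ∈ V)
    (hrs : ∀ x ∈ U, ∀ y ∈ U, κ x = κ y → r x y → s (f x) (f y)) (hs : ∀ z ∈ V, ¬ s z z) :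
    Leq U r V s I.card := by
  have h := Leq.iUnion I (U := U) (r := r) (V := V) (s := s)
    (fun i => {x | x ∈ U ∧ κ x = i}) (fun x hx => ⟨κ x, hκ x hx, hx, rfl⟩)
    (fun _ => (1 : ℝ)) (fun _ _ => zero_le_one) (fun i _ => Leq.of_map f
      (fun x hx => hf x hx.1) (fun x hx y hy => hrs x hx.1 y hy.1 (hx.2.trans hy.2.symm)) hs)
  simpa using h

/-- The comparison holds for every finite conflict structure. -/
theorem Leq.fintype {U : Set α} {r : α → α → Prop} {V : Set β} {s : β → β → Prop} {c : ℝ}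
    (h : Leq U r V s c) {K : Type*} [Fintype K] (k : K → K → Prop) (hk : ∀ i, ¬ k i i)
    (E : Finset (α × K)) (hE : ∀ x ∈ E, x.1 ∈ U)
    (hE' : ∀ x ∈ E, ∀ y ∈ E, x ≠ y → r x.1 y.1 ∨ k x.2 y.2) :
    ∃ E' : Finset (β × K), (∀ x ∈ E', x.1 ∈ V) ∧
      (∀ x ∈ E', ∀ y ∈ E', x ≠ y → s x.1 y.1 ∨ k x.2 y.2) ∧ (E.card : ℝ) ≤ c * E'.card := by
  classical
  let e := Fintype.equivFin K
  obtain ⟨E', h1, h2, h3⟩ := h (Fintype.card K) (fun i j => k (e.symm i) (e.symm j))
    (fun i => hk _) (E.map ((Equiv.refl α).prodCongr e).toEmbedding) (by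
      intro x hx
      rw [Finset.mem_map] at hx
      obtain ⟨y, hy, rfl⟩ := hx
      exact hE y hy) (by
      intro x hx y hy hne
      rw [Finset.mem_map] at hx hy
      obtain ⟨x, hx, rfl⟩ := hx
      obtain ⟨y, hy, rfl⟩ := hy
      have : x ≠ y := by
        rintro rfl
        exact hne rfl
      simpa using hE' x hx y hy this)
  refine ⟨E'.map ((Equiv.refl β).prodCongr e.symm).toEmbedding, ?_, ?_, ?_⟩
  · intro x hx
    rw [Finset.mem_map] at hx
    obtain ⟨y, hy, rfl⟩ := hx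
    exact h1 y hy
  · intro x hx y hy hne
    rw [Finset.mem_map] at hx hy
    obtain ⟨x, hx, rfl⟩ := hx
    obtain ⟨y, hy, rfl⟩ := hy
    have : x ≠ y := by
      rintro rfl
      exact hne rfl
    simpa using h2 x hx y hy this
  · simpa using h3

/-- Products. -/
theorem Leq.prod {U : Set α} {r : α → α → Prop} {V : Set β} {s : β → β → Prop} {c : ℝ}
    {U' : Set γ} {r' : γ → γ → Prop} {V' : Set δ} {s' : δ → δ → Prop} {c' : ℝ} (hc : 0 ≤ c)
    (h : Leq U r V s c) (h' : Leq U' r' V' s' c') (hr' : ∀ z ∈ U', ¬ r' z z)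
    (hs : ∀ z ∈ V, ¬ s z z) :
    Leq (U ×ˢ U') (fun x y => r x.1 y.1 ∨ r' x.2 y.2) (V ×ˢ V')
      (fun x y => s x.1 y.1 ∨ s' x.2 y.2) (c * c') := by
  classical
  intro m k hk E hE hE'
  -- first step: replace the first coordinate
  let I₂ : Finset γ := E.image (fun x => x.1.2)
  have hI₂ : ∀ z ∈ I₂, z ∈ U' := by
    intro z hz
    obtain ⟨x, hx, rfl⟩ := Finset.mem_image.1 hz
    exact (hE x hx).2
  let E₁ : Finset (α × (I₂ × Fin m)) := E.attach.image
    (fun x => (x.1.1.1, (⟨x.1.1.2, Finset.mem_image_of_mem _ x.2⟩, x.1.2)))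
  obtain ⟨E₂, h1, h2, h3⟩ := h.fintype
    (k := fun i j : I₂ × Fin m => r' (i.1 : γ) (j.1 : γ) ∨ k i.2 j.2)
    (by
      intro i hi
      rcases hi with hi | hi
      · exact hr' _ (hI₂ _ i.1.2) hi
      · exact hk _ hi) E₁ (by
      intro x hx
      obtain ⟨y, -, rfl⟩ := Finset.mem_image.1 hx
      exact (hE y.1 y.2).1) (by
      intro x hx y hy hne
      obtain ⟨x, -, rfl⟩ := Finset.mem_image.1 hx
      obtain ⟨y, -, rfl⟩ := Finset.mem_image.1 hy
      have hxy : x.1 ≠ y.1 := by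
        intro hxy
        have : x = y := Subtype.ext hxy
        exact hne (by rw [this])
      have := hE' x.1 x.2 y.1 y.2 hxy
      simp only
      tauto)
  have hcard₁ : E₁.card = E.card := by
    rw [Finset.card_image_of_injective, Finset.card_attach]
    intro x y hxy
    simp only [Prod.mk.injEq, Subtype.mk.injEq] at hxy
    apply Subtype.ext
    exact Prod.ext (Prod.ext hxy.1 hxy.2.1) hxy.2.2
  -- second step: replace the second coordinate
  let J : Finset β := E₂.image (fun x => x.1)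
  have hJ : ∀ z ∈ J, z ∈ V := by
    intro z hz
    obtain ⟨x, hx, rfl⟩ := Finset.mem_image.1 hz
    exact h1 x hx
  let E₃ : Finset (γ × (J × Fin m)) := E₂.attach.image
    (fun x => ((x.1.2.1 : γ), (⟨x.1.1, Finset.mem_image_of_mem _ x.2⟩, x.1.2.2)))
  obtain ⟨E₄, h4, h5, h6⟩ := h'.fintype
    (k := fun i j : J × Fin m => s (i.1 : β) (j.1 : β) ∨ k i.2 j.2)
    (by
      intro i hi
      rcases hi with hi | hi
      · exact hs _ (hJ _ i.1.2) hi
      · exact hk _ hi) E₃ (by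
      intro x hx
      obtain ⟨y, -, rfl⟩ := Finset.mem_image.1 hx
      exact hI₂ _ y.1.2.1.2) (by
      intro x hx y hy hne
      obtain ⟨x, -, rfl⟩ := Finset.mem_image.1 hx
      obtain ⟨y, -, rfl⟩ := Finset.mem_image.1 hy
      have hxy : x.1 ≠ y.1 := by
        intro hxy
        have : x = y := Subtype.ext hxy
        exact hne (by rw [this])
      have := h2 x.1 x.2 y.1 y.2 hxy
      simp only
      tauto)
  have hcard₃ : E₃.card = E₂.card := by
    rw [Finset.card_image_of_injective, Finset.card_attach]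
    intro x y hxy
    simp only [Prod.mk.injEq, Subtype.mk.injEq] at hxy
    apply Subtype.ext
    exact Prod.ext hxy.2.1 (Prod.ext (Subtype.ext hxy.1) hxy.2.2)
  let E₅ : Finset ((β × δ) × Fin m) := E₄.image (fun x => (((x.2.1 : β), x.1), x.2.2))
  refine ⟨E₅, ?_, ?_, ?_⟩
  · intro x hx
    obtain ⟨y, hy, rfl⟩ := Finset.mem_image.1 hx
    exact ⟨hJ _ y.2.1.2, h4 y hy⟩
  · intro x' hx' y' hy' hne
    obtain ⟨x, hx, rfl⟩ := Finset.mem_image.1 hx'
    obtain ⟨y, hy, rfl⟩ := Finset.mem_image.1 hy'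
    have hxy : x ≠ y := by
      rintro rfl
      exact hne rfl
    have := h5 x hx y hy hxy
    simp only
    tauto
  · have hcard₅ : E₅.card = E₄.card := by
      rw [Finset.card_image_of_injective]
      intro x y hxy
      simp only [Prod.mk.injEq] at hxy
      exact Prod.ext hxy.1.2 (Prod.ext (Subtype.ext hxy.1.1) hxy.2)
    rw [hcard₅]
    rw [hcard₁] at h3
    rw [hcard₃] at h6
    refine h3.trans ?_
    rw [mul_assoc]
    exact mul_le_mul_of_nonneg_left h6 hc

/-- Comparison with a finite set of pairwise conflicting elements, when equal labels exclude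
conflicts. -/
theorem Leq.labels {U : Set α} {r : α → α → Prop} {V : Set β} {s : β → β → Prop} {N : ℕ}
    (κ : α → Fin N) (hκ : ∀ x ∈ U, ∀ y ∈ U, κ x = κ y → ¬ r x y) (Q : Finset β)
    (hQ : Q.Nonempty) (hQV : ∀ z ∈ Q, z ∈ V) (hQs : ∀ z ∈ Q, ∀ z' ∈ Q, z ≠ z' → s z z') :
    Leq U r V s (N / Q.card) := by
  classical
  intro m k hk E hE hE'
  rcases E.eq_empty_or_nonempty with rfl | hEne
  · exact ⟨∅, by simp, by simp, by simp⟩
  have hN : (Finset.univ : Finset (Fin N)).Nonempty := by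
    obtain ⟨x, -⟩ := hEne
    exact ⟨κ x.1, Finset.mem_univ _⟩
  obtain ⟨j₀, -, hmax⟩ := Finset.exists_max_image Finset.univ
    (fun j : Fin N => (E.filter (fun x => κ x.1 = j)).card) hN
  let I : Finset (Fin m) := (E.filter (fun x => κ x.1 = j₀)).image (fun x => x.2)
  have hinj : Set.InjOn (fun x : α × Fin m => x.2) (E.filter (fun x => κ x.1 = j₀)) := by
    intro x hx y hy hxy
    rw [Finset.mem_coe, Finset.mem_filter] at hx hy
    by_contra hne
    rcases hE' x hx.1 y hy.1 hne with h | h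
    · exact hκ _ (hE x hx.1) _ (hE y hy.1) (hx.2.trans hy.2.symm) h
    · simp only at hxy
      rw [hxy] at h
      exact hk _ h
  have hI : I.card = (E.filter (fun x => κ x.1 = j₀)).card := Finset.card_image_of_injOn hinj
  have hIk : ∀ i ∈ I, ∀ j ∈ I, i ≠ j → k i j := by
    intro i hi j hj hne
    obtain ⟨x, hx, rfl⟩ := Finset.mem_image.1 hi
    obtain ⟨y, hy, rfl⟩ := Finset.mem_image.1 hj
    rw [Finset.mem_filter] at hx hy
    have hxy : x ≠ y := by
      rintro rfl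
      exact hne rfl
    rcases hE' x hx.1 y hy.1 hxy with h | h
    · exact absurd h (hκ _ (hE x hx.1) _ (hE y hy.1) (hx.2.trans hy.2.symm))
    · exact h
  refine ⟨Q ×ˢ I, ?_, ?_, ?_⟩
  · intro x hx
    exact hQV _ (Finset.mem_product.1 hx).1
  · intro x hx y hy hne
    rw [Finset.mem_product] at hx hy
    by_cases h2 : x.2 = y.2
    · have h1 : x.1 ≠ y.1 := fun h1 => hne (Prod.ext h1 h2)
      exact Or.inl (hQs _ hx.1 _ hy.1 h1)
    · exact Or.inr (hIk _ hx.2 _ hy.2 h2)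
  · have h1 : (E.card : ℝ) ≤ N * I.card := by
      have h2 : E.card = ∑ j : Fin N, (E.filter (fun x => κ x.1 = j)).card :=
        Finset.card_eq_sum_card_fiberwise (f := fun x : α × Fin m => κ x.1) (t := Finset.univ)
          (fun x _ => Finset.mem_coe.2 (Finset.mem_univ _))
      have h3 : E.card ≤ ∑ _j : Fin N, I.card := by
        rw [h2]
        refine Finset.sum_le_sum (fun j hj => ?_)
        rw [hI]
        exact hmax j hj
      rw [Finset.sum_const, Finset.card_univ, Fintype.card_fin, smul_eq_mul] at h3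
      exact_mod_cast h3
    have hQpos : (0 : ℝ) < Q.card := by exact_mod_cast hQ.card_pos
    rw [Finset.card_product, Nat.cast_mul, div_mul_eq_mul_div, le_div_iff₀ hQpos]
    calc (E.card : ℝ) * Q.card ≤ (N * I.card) * Q.card :=
          mul_le_mul_of_nonneg_right h1 hQpos.le
      _ = N * (Q.card * I.card) := by ring

/-- Plain form. -/
theorem Leq.plain {U : Set α} {r : α → α → Prop} {V : Set β} {s : β → β → Prop} {c : ℝ}
    (h : Leq U r V s c) (E : Finset α) (hE : ∀ x ∈ E, x ∈ U)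
    (hE' : ∀ x ∈ E, ∀ y ∈ E, x ≠ y → r x y) :
    ∃ E' : Finset β, (∀ x ∈ E', x ∈ V) ∧ (∀ x ∈ E', ∀ y ∈ E', x ≠ y → s x y) ∧
      (E.card : ℝ) ≤ c * E'.card := by
  classical
  obtain ⟨E', h1, h2, h3⟩ := h 1 (fun _ _ => False) (fun _ h => h)
    (E.image (fun x => (x, (0 : Fin 1)))) (by
      intro x hx
      obtain ⟨y, hy, rfl⟩ := Finset.mem_image.1 hx
      exact hE y hy) (by
      intro x' hx' y' hy' hne
      obtain ⟨x, hx, rfl⟩ := Finset.mem_image.1 hx'
      obtain ⟨y, hy, rfl⟩ := Finset.mem_image.1 hy'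
      left
      refine hE' x hx y hy ?_
      rintro rfl
      exact hne rfl)
  have hinj : Set.InjOn (fun x : β × Fin 1 => x.1) E' := by
    intro x hx y hy hxy
    refine Prod.ext hxy (Subsingleton.elim _ _)
  refine ⟨E'.image (fun x => x.1), ?_, ?_, ?_⟩
  · intro x hx
    obtain ⟨y, hy, rfl⟩ := Finset.mem_image.1 hx
    exact h1 y hy
  · intro x' hx' y' hy' hne
    obtain ⟨x, hx, rfl⟩ := Finset.mem_image.1 hx'
    obtain ⟨y, hy, rfl⟩ := Finset.mem_image.1 hy'
    have hxy : x ≠ y := by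
      rintro rfl
      exact hne rfl
    rcases h2 x hx y hy hxy with h | h
    · exact h
    · exact absurd h (fun h => h)
  · rw [Finset.card_image_of_injOn hinj]
    rwa [Finset.card_image_of_injective] at h3
    intro x y hxy
    exact congrArg Prod.fst hxy

theorem not_conf {X : Type*} (F : X → X) {S : Set (X × X)} (hS : ∀ x, (x, x) ∉ S) (T : ℕ)
    (x : X) : ¬ Conf F S T x x := by
  rintro ⟨t, -, h⟩
  exact hS _ h

theorem not_pw {X : Type*} {S : Set (X × X)} (hS : ∀ x, (x, x) ∉ S) (T : ℕ)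
    (ξ : ℕ → X) : ¬ pw S T ξ ξ := by
  rintro ⟨t, -, h⟩
  exact hS _ h

end Pool.Agent.Helper38.Weiss
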