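import Mathlib

/-!
MP_6b0aee_an (Weiss): working definitions.

`Conf F S T x y`: the orbits of `x` and `y` hit the set `S` of conflicting pairs before time `T`.
`Leq U r V s c`: in every finite conflict structure, `U` (conflicts `r`) is packed at most `c`
times better than `V` (conflicts `s`).
`Typ P L q δ b T`: sequences whose `P`-names on `[0,T)` are, up to `δ T + b`, filled by disjoint
words of length `L` with frequencies `q`.
-/

open Set Filter Topology MeasureTheory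

namespace Pool.Agent.Helper38.Weiss

/-- Stable comparison of packing numbers. -/
def Leq {α β : Type*} (U : Set α) (r : α → α → Prop) (V : Set β) (s : β → β → Prop)
    (c : ℝ) : Prop :=
  ∀ (m : ℕ) (k : Fin m → Fin m → Prop), (∀ i, ¬ k i i) →
    ∀ E : Finset (α × Fin m), (∀ x ∈ E, x.1 ∈ U) →
      (∀ x ∈ E, ∀ y ∈ E, x ≠ y → r x.1 y.1 ∨ k x.2 y.2) →
      ∃ E' : Finset (β × Fin m), (∀ x ∈ E', x.1 ∈ V) ∧
        (∀ x ∈ E', ∀ y ∈ E', x ≠ y → s x.1 y.1 ∨ k x.2 y.2) ∧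
        (E.card : ℝ) ≤ c * E'.card

/-- Two points whose orbits conflict before time `T`. -/
def Conf {X : Type*} (F : X → X) (S : Set (X × X)) (T : ℕ) (x y : X) : Prop :=
  ∃ t < T, (F^[t] x, F^[t] y) ∈ S

/-- Two sequences which conflict before time `T`. -/
def pw {X : Type*} (S : Set (X × X)) (T : ℕ) (ξ ζ : ℕ → X) : Prop :=
  ∃ t < T, (ξ t, ζ t) ∈ S

/-- The orbit of a point. -/
def orb {X : Type*} (F : X → X) (x : X) : ℕ → X := fun t => F^[t] x

/-- The word of length `L` read at time `a`. -/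
def word {X : Type*} {n : ℕ} (P : X → Fin n) (L : ℕ) (ξ : ℕ → X) (a : ℕ) : Fin L → Fin n :=
  fun s => P (ξ (a + s))

/-- Start times of disjoint blocks of length `L` inside `[0,T)`. -/
def Packing (L T : ℕ) (A : Finset ℕ) : Prop :=
  (∀ a ∈ A, a + L ≤ T) ∧ ∀ a ∈ A, ∀ a' ∈ A, a < a' → a + L ≤ a'

open Classical in
/-- The number of blocks at which the word `w` is read. -/
noncomputable def cnt {X : Type*} {n : ℕ} (P : X → Fin n) (L : ℕ) (A : Finset ℕ) (ξ : ℕ → X)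
    (w : Fin L → Fin n) : ℕ := (A.filter (fun a => word P L ξ a = w)).card

/-- The blocks starting in `A` fill `[0,T)` with frequencies `q` up to the error `c`. -/
def Near {X : Type*} {n : ℕ} (P : X → Fin n) (L : ℕ) (q : (Fin L → Fin n) → ℝ) (A : Finset ℕ)
    (ξ : ℕ → X) (T : ℕ) (c : ℝ) : Prop :=
  ∑ w : Fin L → Fin n, |(L : ℝ) * cnt P L A ξ w - q w * T| ≤ c

/-- Typical sequences. -/
def Typ {X : Type*} {n : ℕ} (P : X → Fin n) (L : ℕ) (q : (Fin L → Fin n) → ℝ) (δ b : ℝ)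
    (T : ℕ) : Set (ℕ → X) :=
  {ξ | ∃ A : Finset ℕ, Packing L T A ∧ Near P L q A ξ T (δ * T + b)}

/-- The distribution of the words of length `L`. -/
noncomputable def law {X : Type*} [MeasurableSpace X] (ν : Measure X) (F : X → X) {n : ℕ}
    (P : X → Fin n) (L : ℕ) (w : Fin L → Fin n) : ℝ :=
  (ν {x | ∀ s : Fin L, P (F^[s] x) = w s}).toReal

/-- Shannon entropy. -/
noncomputable def ent {ι : Type*} [Fintype ι] (q : ι → ℝ) : ℝ := ∑ i, Real.negMulLog (q i)

/-- The infimum of the normalised entropies of the word distributions. -/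
noncomputable def hInf {X : Type*} [MeasurableSpace X] (ν : Measure X) (F : X → X) {n : ℕ}
    (P : X → Fin n) : ℝ := ⨅ L : ℕ, ent (law ν F P (L + 1)) / ((L : ℝ) + 1)

/-- The orbits with conflicts `S` are exponentially fewer than the typical sequences with
conflicts `S'`. -/
def Dom {X : Type*} [TopologicalSpace X] [MeasurableSpace X] (F : X → X) (ν : Measure X)
    (S S' : Set (X × X)) (p : ℝ) : Prop :=
  ∀ (n : ℕ) (P : X → Fin n), Measurable P → (∀ i, ν (frontier (P ⁻¹' {i})) = 0) →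
    ∀ L > 0, ∀ δ > 0, ∃ T₀ : ℕ, ∀ T ≥ T₀,
      Leq univ (Conf F S T) (Typ P L (law ν F P L) δ 0 T) (pw S' T) (Real.exp (-(p * T)))

/-- Symmetric sets of pairs. -/
def Sym {X : Type*} (S : Set (X × X)) : Prop := ∀ x y, (x, y) ∈ S → (y, x) ∈ S

/-- The relation between thresholds. -/
def Lk {X : Type*} [TopologicalSpace X] [MeasurableSpace X] (F : X → X) (ν : Measure X)
    (C U : Set (X × X)) : Prop :=
  Sym C ∧ Sym U ∧ (∀ x, (x, x) ∉ U) ∧ ∃ S S' : Set (X × X), IsOpen S ∧ IsClosed S' ∧ Sym S ∧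
    Sym S' ∧ C ⊆ S ∧ S ⊆ S' ∧ S' ⊆ U ∧ ∃ p > 0, Dom F ν S S' p

/-- The window `[0,T)` of the orbit of `x` is tiled by blocks of length `N` that start in `G` and
by at most `g` single times. -/
inductive Cov {X : Type*} (F : X → X) (G : Set X) (N : ℕ) : X → ℕ → ℕ → Prop
  | nil (x : X) (g : ℕ) : Cov F G N x 0 g
  | skip (x : X) (T g : ℕ) : Cov F G N (F x) T g → Cov F G N x (T + 1) (g + 1)
  | block (x : X) (T g : ℕ) : x ∈ G → Cov F G N (F^[N] x) T g → Cov F G N x (N + T) g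

/-- The abstract properties of the families `Typ P L q`. -/
structure Fam {X : Type*} (Y : ℝ → ℝ → ℕ → Set (ℕ → X)) : Prop where
  mono : ∀ {δ b δ' b' : ℝ} {T : ℕ}, δ * T + b ≤ δ' * T + b' → Y δ b T ⊆ Y δ' b' T
  concat : ∀ {δ b b' : ℝ} {T T' : ℕ} {ξ : ℕ → X}, ξ ∈ Y δ b T →
    (fun t => ξ (T + t)) ∈ Y δ b' T' → ξ ∈ Y δ (b + b') (T + T')
  triv : ∀ {δ b : ℝ} {T : ℕ} {ξ : ℕ → X}, 0 ≤ δ → (T : ℝ) ≤ b → ξ ∈ Y δ b T
  loc : ∀ {δ b : ℝ} {T : ℕ} {ξ ζ : ℕ → X}, (∀ t < T, ξ t = ζ t) → ξ ∈ Y δ b T → ζ ∈ Y δ b T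

/-- The number of classes of a partition into sets of `D_T`-diameter at most `ε`. -/
noncomputable def covN {X : Type*} [PseudoMetricSpace X] (F : X → X) (ε : ℝ) (T : ℕ) : ℕ :=
  sInf {n | ∃ φ : X → Fin n, ∀ x y, φ x = φ y → ∀ t < T, dist (F^[t] x) (F^[t] y) ≤ ε}

/-- The exponential growth rate of `covN`. -/
noncomputable def covR {X : Type*} [PseudoMetricSpace X] (F : X → X) (ε : ℝ) : ℝ :=
  ⨅ T : ℕ, Real.log (covN F ε (T + 1)) / ((T : ℝ) + 1)

end Pool.Agent.Helper38.Weiss
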