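import Pool.Agent.Helper38.Weiss.Ins2
import Pool.Agent.Helper42.Weiss.Criterion
import Pool.Agent.Helper23.Weiss.Glue

open Set Filter Topology MeasureTheory

namespace Pool.Agent.Helper38.Weiss

/-- Conflicts `U` grow at least as fast as conflicts `C`. -/
def Cmp {X : Type*} (F : X → X) (C U : Set (X × X)) : Prop :=
  ∀ η > 0, ∃ N : ℕ, ∀ T ≥ N, ∃ T₀ : ℕ, ∀ T' ≥ T₀, ∀ E : Finset X, E.Nonempty →
    (∀ x ∈ E, ∀ y ∈ E, x ≠ y → Conf F C T x y) → ∃ E' : Finset X, E'.Nonempty ∧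
      (∀ x ∈ E', ∀ y ∈ E', x ≠ y → Conf F U T' x y) ∧
      Real.log E.card / T - η ≤ Real.log E'.card / T'

theorem Cmp.mono {X : Type*} {F : X → X} {C C' U U' : Set (X × X)} (h : Cmp F C' U')
    (hC : C ⊆ C') (hU : U' ⊆ U) : Cmp F C U := by
  intro η hη
  obtain ⟨N, hN⟩ := h η hη
  refine ⟨N, fun T hT => ?_⟩
  obtain ⟨T₀, hT₀⟩ := hN T hT
  refine ⟨T₀, fun T' hT' E hE hE' => ?_⟩
  obtain ⟨E₁, h1, h2, h3⟩ := hT₀ T' hT' E hE (fun x hx y hy hne => by
    obtain ⟨t, ht, h⟩ := hE' x hx y hy hne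
    exact ⟨t, ht, hC h⟩)
  refine ⟨E₁, h1, fun x hx y hy hne => ?_, h3⟩
  obtain ⟨t, ht, h⟩ := h2 x hx y hy hne
  exact ⟨t, ht, hU h⟩

/-- One window of thresholds. -/
structure IsWin {X : Type*} [MetricSpace X] (F : X → X) (r δ ρ : ℝ) (f : X → X → ℝ) : Prop where
  ρ_pos : 0 < ρ
  le_r : δ ≤ r
  cont : Continuous (fun z : X × X => f z.1 z.2)
  nonneg : ∀ x y, 0 ≤ f x y
  le_one : ∀ x y, f x y ≤ 1
  symm : ∀ x y, f x y = f y x
  far : ∀ x y, δ ≤ dist x y → f x y = 1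
  near : ∀ x y, dist x y < ρ → f x y = 0
  cmp : ∀ s t, 0 < s → s < t → t < 1 → Cmp F {z | t < f z.1 z.2} {z | s < f z.1 z.2}

theorem exists_win {X : Type*} [MetricSpace X] [CompactSpace X] [Nonempty X] (F : X → X)
    (hFc : Continuous F) (hnp : ∀ ε₀ > 0, ∃ ε > 0, covR F ε₀ < covR F ε) {r : ℝ} (hr : 0 < r) :
    ∃ (δ ρ : ℝ) (f : X → X → ℝ), IsWin F r δ ρ f := by
  letI : MeasurableSpace X := borel X
  haveI : BorelSpace X := ⟨rfl⟩
  obtain ⟨ε, hε, hlt⟩ := hnp (r / 2) (by positivity)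
  obtain ⟨ν, hν, hF, hsmall, ρ, hρ, hρr, hLk⟩ := base_lk F hFc (r / 2) ε (by positivity) hε hlt
  have hcd : Continuous (fun z : X × X => dist z.1 z.2) := continuous_fst.dist continuous_snd
  obtain ⟨f, hfc, hf0, hf1, hfC, hfU, hth⟩ := exists_threshold (Lk F ν)
    (fun {c u} hc hcu hu hs => insertion' F ν hFc hF hsmall c u hc hu hs hcu)
    (C := {z : X × X | 2 * (r / 2) ≤ dist z.1 z.2}) (U := {z : X × X | ρ < dist z.1 z.2})
    (isClosed_le continuous_const hcd) (isOpen_lt continuous_const hcd)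
    (fun z hz => lt_of_lt_of_le (by linarith) (show 2 * (r / 2) ≤ dist z.1 z.2 from hz)) hLk
  -- symmetry
  have hsym1 : ∀ x y, f (y, x) ≤ f (x, y) := by
    intro x y
    rcases (hf1 (x, y)).lt_or_eq with h1 | h1
    · refine le_of_forall_gt_imp_ge_of_dense (fun t ht => ?_)
      rcases lt_or_ge t 1 with ht1 | ht1
      · obtain ⟨s, hs1, hs2⟩ := exists_between ht
        obtain ⟨C', U', -, -, hR, h2, h3, h4⟩ := hth s t ((hf0 (x, y)).trans_lt hs1) hs2 ht1
        have h5 : (x, y) ∈ C' := h2 hs1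
        exact h4 (h3 (hR.1 x y h5))
      · exact (hf1 _).trans ht1
    · rw [h1]
      exact hf1 _
  refine ⟨2 * (r / 2), ρ, fun x y => 1 - f (x, y), hρ, by linarith, continuous_const.sub hfc,
    fun x y => by linarith [hf1 (x, y)], fun x y => by linarith [hf0 (x, y)],
    fun x y => by rw [le_antisymm (hsym1 x y) (hsym1 y x)], ?_, ?_, ?_⟩
  · intro x y hxy
    rw [hfC (x, y) hxy, sub_zero]
  · intro x y hxy
    rw [hfU (x, y) (fun h => absurd hxy (not_lt.2 (le_of_lt h))), sub_self]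
  · intro s t hs hst ht
    obtain ⟨C', U', -, hU'o, hR, h2, h3, h4⟩ := hth (1 - t) ((1 - t + (1 - s)) / 2)
      (by linarith) (by linarith) (by linarith)
    have hcmp : Cmp F C' U' := fun η hη => lk_sep F hFc ν hF C' U' hU'o hR η hη
    refine hcmp.mono ?_ ?_
    · intro z hz
      refine h2 ?_
      have : t < 1 - f (z.1, z.2) := hz
      show f z < 1 - t
      have h5 : f z = f (z.1, z.2) := rfl
      linarith
    · intro z hz
      have h5 : f z ≤ (1 - t + (1 - s)) / 2 := h4 hz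
      show s < 1 - f (z.1, z.2)
      have h6 : f z = f (z.1, z.2) := rfl
      linarith

/-- A modulus of continuity. -/
theorem exists_mod {X : Type*} [MetricSpace X] [CompactSpace X] {f : X → X → ℝ}
    (hf : Continuous (fun z : X × X => f z.1 z.2)) {c : ℝ} (hc : 0 < c) :
    ∃ r > 0, ∀ x y z : X, dist y z < r → f x z ≤ f x y + c := by
  obtain ⟨r, hr, h⟩ := Metric.uniformContinuous_iff.1
    (CompactSpace.uniformContinuous_of_continuous hf) c hc
  refine ⟨r, hr, fun x y z hyz => ?_⟩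
  have h1 := @h (x, z) (x, y) (by
    rw [Prod.dist_eq, dist_self, dist_comm z y]
    exact max_lt hr hyz)
  rw [Real.dist_eq, abs_lt] at h1
  linarith [h1.2]

theorem exists_towerW {X : Type*} [MetricSpace X] [CompactSpace X] [Nonempty X] (F : X → X)
    (hFc : Continuous F) (hnp : ∀ ε₀ > 0, ∃ ε > 0, covR F ε₀ < covR F ε) :
    ∃ (f : ℕ → X → X → ℝ) (δ η : ℕ → ℝ), Pool.Agent.Helper23.Weiss.IsTower f δ η ∧
      ∀ k, ∀ s t, 0 < s → s < t → t < 1 →
        Cmp F {z | t < f k z.1 z.2} {z | s < f k z.1 z.2} := by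
  classical
  choose δ' ρ' f' hw using fun (p : {d : ℝ // 0 < d}) => exists_win F hFc hnp p.2
  choose md hmd0 hmd using fun (p : {d : ℝ // 0 < d}) (c : {d : ℝ // 0 < d}) =>
    exists_mod (hw p).cont c.2
  set c₀ : ℕ → {d : ℝ // 0 < d} := fun k => ⟨(1 / 2) ^ (k + 2), by positivity⟩ with hc₀
  set step : ℕ → {d : ℝ // 0 < d} × ({d : ℝ // 0 < d} → {d : ℝ // 0 < d}) →
      {d : ℝ // 0 < d} × ({d : ℝ // 0 < d} → {d : ℝ // 0 < d}) := fun k s =>
    (⟨min (min (ρ' s.1 / 2) ((1 / 2) ^ (k + 2))) (min (s.2 (c₀ k) : ℝ) (md s.1 (c₀ k))),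
      lt_min (lt_min (half_pos (hw _).ρ_pos) (by positivity))
        (lt_min (s.2 (c₀ k)).2 (hmd0 _ _))⟩,
      fun c => ⟨min (s.2 c : ℝ) (md s.1 c), lt_min (s.2 c).2 (hmd0 _ _)⟩) with hstep
  set st : ℕ → {d : ℝ // 0 < d} × ({d : ℝ // 0 < d} → {d : ℝ // 0 < d}) :=
    fun n => Nat.rec (⟨1, one_pos⟩, fun _ => ⟨1, one_pos⟩) (fun k s => step k s) n with hst
  have hst_succ : ∀ k, st (k + 1) = step k (st k) := fun k => rfl
  have h1 : ∀ k, ((st (k + 1)).1 : ℝ) ≤ ρ' (st k).1 / 2 := by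
    intro k
    rw [hst_succ]
    exact (min_le_left _ _).trans (min_le_left _ _)
  have h2 : ∀ k, ((st (k + 1)).1 : ℝ) ≤ (1 / 2) ^ (k + 2) := by
    intro k
    rw [hst_succ]
    exact (min_le_left _ _).trans (min_le_right _ _)
  have h3 : ∀ k, ((st (k + 1)).1 : ℝ) ≤ (st (k + 1)).2 (c₀ k) := by
    intro k
    rw [hst_succ]
    exact min_le_right _ _
  have h4 : ∀ k c, ((st (k + 1)).2 c : ℝ) ≤ (st k).2 c := by
    intro k c
    rw [hst_succ]
    exact min_le_left _ _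
  have h5 : ∀ k c, ((st (k + 1)).2 c : ℝ) ≤ md (st k).1 c := by
    intro k c
    rw [hst_succ]
    exact min_le_right _ _
  have h6 : ∀ j k c, j ≤ k → ((st (k + 1)).2 c : ℝ) ≤ md (st j).1 c := by
    intro j k c hjk
    induction k, hjk using Nat.le_induction with
    | base => exact h5 j c
    | succ k _ ih => exact (h4 (k + 1) c).trans ih
  refine ⟨fun k => f' (st k).1, fun k => δ' (st k).1, fun k => ρ' (st k).1, ?_,
    fun k => (hw (st k).1).cmp⟩
  refine ⟨fun k => (hw _).nonneg, fun k => (hw _).le_one, fun k => (hw _).symm,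
    fun k => (hw _).far, fun k => (hw _).near, fun k => (hw _).ρ_pos, ?_, ?_, ?_⟩
  · intro k
    have := h1 k
    have := (hw (st (k + 1)).1).le_r
    linarith
  · intro k
    exact (hw (st (k + 1)).1).le_r.trans (h2 k)
  · intro k j hj x y z hyz
    refine hmd (st j).1 (c₀ k) x y z ?_
    have := (hw (st (k + 1)).1).le_r
    have := h3 k
    have := h6 j k (c₀ k) hj
    linarith

/-- The two notions of an equivalent metric agree. -/
theorem equiv_of {X : Type*} [TopologicalSpace X] {D : X → X → ℝ}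
    (h : Pool.Agent.Helper23.Weiss.IsEquivMetric D) :
    Pool.Agent.Helper42.Weiss.IsEquivMetric D := by
  obtain ⟨h1, h2, h3, h4⟩ := h
  refine ⟨fun x => (h1 x x).2 rfl, fun x y => (h1 x y).1, h2, h3, fun x => ⟨fun s => ?_⟩⟩
  constructor
  · intro hs
    obtain ⟨u, hus, hu, hxu⟩ := mem_nhds_iff.1 hs
    obtain ⟨r, hr, hr'⟩ := (h4 u).1 hu x hxu
    exact ⟨r, hr, fun y hy => hus (hr' y hy)⟩
  · rintro ⟨r, hr, hs⟩
    refine Filter.mem_of_superset (IsOpen.mem_nhds ?_ ?_) hs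
    · refine (h4 _).2 (fun y hy => ⟨r - D x y, sub_pos.2 hy, fun z hz => ?_⟩)
      have := h3 x y z
      show D x z < r
      linarith
    · show D x x < r
      rw [(h1 x x).2 rfl]
      exact hr

end Pool.Agent.Helper38.Weiss
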