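import Pool.Agent.Helper38.Weiss.Fin1

open Set Filter Topology MeasureTheory

namespace Pool.Agent.Helper38.Weiss

open Pool.Agent.Helper42.Weiss (IsEquivMetric HasSepRate sepNum IsSep exists_sepNum le_sepNum
  one_le_sepNum sepNum_le_pow)

theorem exists_level {ε' ε : ℝ} (hε' : 0 < ε') (hlt : ε' < ε) (hε : ε ≤ 1) :
    ∃ (k : ℕ) (s t : ℝ), 0 < s ∧ s < t ∧ t < 1 ∧ ε' ≤ (1 / 2) ^ k * (1 + s) / 2 ∧
      (1 / 2) ^ k * (1 + t) / 2 ≤ ε := by
  classical
  have hε0 := hε'.trans hlt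
  have hex : ∃ k : ℕ, (1 / 2 : ℝ) ^ (k + 1) < ε := by
    obtain ⟨n, hn⟩ := exists_pow_lt_of_lt_one hε0 (by norm_num : (1 / 2 : ℝ) < 1)
    refine ⟨n, lt_of_le_of_lt (pow_le_pow_of_le_one (by norm_num) (by norm_num) (by omega)) hn⟩
  obtain ⟨k, hk1, hk2⟩ : ∃ k : ℕ, (1 / 2 : ℝ) ^ (k + 1) < ε ∧ ε ≤ (1 / 2) ^ k := by
    refine ⟨Nat.find hex, Nat.find_spec hex, ?_⟩
    rcases Nat.eq_zero_or_pos (Nat.find hex) with h | h
    · rw [h]
      simpa using hε
    · have := Nat.find_min hex (Nat.sub_lt h one_pos)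
      rw [show Nat.find hex - 1 + 1 = Nat.find hex by omega] at this
      exact not_lt.1 this
  have hw : (0 : ℝ) < (1 / 2) ^ k := by positivity
  have hw1 : (1 / 2 : ℝ) ^ (k + 1) = (1 / 2) ^ k / 2 := by
    rw [pow_succ]
    ring
  set lo := max ε' ((1 / 2) ^ (k + 1)) with hlo
  have hlo1 : lo < ε := max_lt hlt hk1
  have hlo2 : ε' ≤ lo := le_max_left _ _
  have hlo3 : (1 / 2 : ℝ) ^ (k + 1) ≤ lo := le_max_right _ _
  rw [hw1] at hlo3
  set e₂ := lo + (ε - lo) / 3 with he₂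
  set e₁ := lo + 2 * (ε - lo) / 3 with he₁
  refine ⟨k, 2 * e₂ / (1 / 2) ^ k - 1, 2 * e₁ / (1 / 2) ^ k - 1, ?_, ?_, ?_, ?_, ?_⟩
  · rw [sub_pos, lt_div_iff₀ hw]
    linarith
  · rw [sub_lt_sub_iff_right, div_lt_div_iff_of_pos_right hw]
    linarith
  · rw [sub_lt_iff_lt_add, div_lt_iff₀ hw]
    linarith
  · have : (1 / 2 : ℝ) ^ k * (1 + (2 * e₂ / (1 / 2) ^ k - 1)) / 2 = e₂ := by
      field_simp
      ring
    rw [this]
    linarith
  · have : (1 / 2 : ℝ) ^ k * (1 + (2 * e₁ / (1 / 2) ^ k - 1)) / 2 = e₁ := by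
      field_simp
      ring
    rw [this]
    linarith

/-- **Weiss' question has a positive answer.** -/
theorem weiss {X : Type*} [MetricSpace X] [CompactSpace X] (F : X → X) (hFc : Continuous F) :
    ∃ D : X → X → ℝ, IsEquivMetric D ∧ ∀ ε > 0, HasSepRate D F ε := by
  classical
  rcases isEmpty_or_nonempty X with hX | hX
  · refine ⟨fun _ _ => 0, ⟨fun x => (hX.false x).elim, fun x => (hX.false x).elim,
      fun x => (hX.false x).elim, fun x => (hX.false x).elim, fun x => (hX.false x).elim⟩,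
      fun ε _ => Pool.Agent.Helper42.Weiss.hasSepRate_of_isEmpty _ F ε⟩
  by_cases hpl : ∃ ε₀ > 0, ∀ ε > 0, covR F ε ≤ covR F ε₀
  · obtain ⟨ε₀, hε₀, h⟩ := hpl
    exact plateau F hFc ε₀ hε₀ h
  have hnp : ∀ ε₀ > 0, ∃ ε > 0, covR F ε₀ < covR F ε := by
    intro ε₀ hε₀
    by_contra hcon
    exact hpl ⟨ε₀, hε₀, fun ε hε => not_lt.1 (fun h => hcon ⟨ε, hε, h⟩)⟩
  obtain ⟨f, δ, η, htower, hcmp⟩ := exists_towerW F hFc hnp
  have hD : IsEquivMetric (Pool.Agent.Helper23.Weiss.glue f) := equiv_of htower.isEquivMetric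
  set D := Pool.Agent.Helper23.Weiss.glue f with hDdef
  refine Pool.Agent.Helper42.Weiss.repair F hD ?_
  refine Pool.Agent.Helper42.Weiss.countable_bad
    (fun ε T => Real.log (sepNum D F ε T) / T) ?_ ?_
  · intro ε hε
    obtain ⟨n, hn, κ, hκ⟩ := Pool.Agent.Helper42.Weiss.exists_label hD hε
    have hlog : 0 ≤ Real.log n := Real.log_natCast_nonneg n
    refine ⟨Real.log n, fun T => ⟨div_nonneg (Real.log_natCast_nonneg _) (Nat.cast_nonneg _), ?_⟩⟩
    rcases Nat.eq_zero_or_pos T with h0 | h0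
    · subst h0
      simpa using hlog
    · rw [div_le_iff₀ (by exact_mod_cast h0)]
      have h1 : (1 : ℝ) ≤ (sepNum D F ε T : ℝ) := by exact_mod_cast one_le_sepNum hD F hε T
      have h2 : (sepNum D F ε T : ℝ) ≤ (n : ℝ) ^ T := by exact_mod_cast sepNum_le_pow hD hε hκ T
      have h3 := Real.log_le_log (by linarith) h2
      rw [Real.log_pow] at h3
      linarith
  · intro ε' ε hε' hlt η' hη'
    have hε := hε'.trans hlt
    have hnn : ∀ T : ℕ, 0 ≤ Real.log (sepNum D F ε' T) / T := fun T =>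
      div_nonneg (Real.log_natCast_nonneg _) (Nat.cast_nonneg _)
    rcases le_or_gt ε 1 with hε1 | hε1
    · obtain ⟨k, s, t, hs, hst, ht, h1, h2⟩ := exists_level hε' hlt hε1
      obtain ⟨N, hN⟩ := hcmp k s t hs hst ht η' hη'
      refine ⟨N, fun T₁ hT₁ => ?_⟩
      obtain ⟨T₀, hT₀⟩ := hN T₁ hT₁
      refine ⟨T₀, fun T hT => ?_⟩
      obtain ⟨E, hE, hEs⟩ := exists_sepNum hD F hε T₁
      have hEne : E.Nonempty := by
        rw [← Finset.card_pos, hE]
        exact one_le_sepNum hD F hε T₁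
      obtain ⟨E', hE'ne, hE's, hle⟩ := hT₀ T hT E hEne (by
        intro x hx y hy hne
        obtain ⟨u, hu, h⟩ := hEs x hx y hy hne
        refine ⟨u, hu, ?_⟩
        show t < f k (F^[u] x) (F^[u] y)
        by_contra hcon
        rw [not_lt, ← htower.glue_le_iff (hs.trans hst).le ht] at hcon
        linarith)
      have h3 : E'.card ≤ sepNum D F ε' T := by
        refine le_sepNum hD hε' ?_
        intro x hx y hy hne
        obtain ⟨u, hu, h⟩ := hE's x hx y hy hne
        refine ⟨u, hu, ?_⟩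
        have h4 : s < f k (F^[u] x) (F^[u] y) := h
        by_contra hcon
        rw [not_lt] at hcon
        have h5 := (htower.glue_le_iff (k := k) hs.le (hst.trans ht) (F^[u] x) (F^[u] y)).1
          (hcon.trans h1)
        linarith
      have h4 : Real.log E'.card ≤ Real.log (sepNum D F ε' T) :=
        Real.log_le_log (by exact_mod_cast hE'ne.card_pos) (by exact_mod_cast h3)
      show Real.log (sepNum D F ε T₁) / T₁ - η' ≤ Real.log (sepNum D F ε' T) / T
      rw [← hE]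
      exact hle.trans (div_le_div_of_nonneg_right h4 (Nat.cast_nonneg _))
    · refine ⟨0, fun T₁ _ => ⟨0, fun T _ => ?_⟩⟩
      obtain ⟨E, hE, hEs⟩ := exists_sepNum hD F hε T₁
      have hcard : E.card ≤ 1 := by
        rw [Finset.card_le_one]
        intro x hx y hy
        by_contra hne
        obtain ⟨u, hu, h⟩ := hEs x hx y hy hne
        have := htower.glue_le_one (F^[u] x) (F^[u] y)
        linarith
      have h1 : Real.log (sepNum D F ε T₁) = 0 := by
        rw [← hE]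
        have : E.card = 0 ∨ E.card = 1 := by omega
        rcases this with h | h <;> simp [h]
      show Real.log (sepNum D F ε T₁) / T₁ - η' ≤ Real.log (sepNum D F ε' T) / T
      rw [h1, zero_div]
      linarith [hnn T]

end Pool.Agent.Helper38.Weiss
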