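import Pool.Agent.Helper38.Weiss.Parts

open Set Filter Topology MeasureTheory

namespace Pool.Agent.Helper38.Weiss

theorem Sym.closure {X : Type*} [TopologicalSpace X] {S : Set (X × X)} (h : Sym S) :
    Sym (closure S) := by
  intro x y hxy
  have h1 : MapsTo (Prod.swap : X × X → X × X) S S := fun z hz => h z.1 z.2 hz
  exact (h1.closure continuous_swap) hxy

theorem sym_between {X : Type*} [MetricSpace X] {A B : Set (X × X)} (hA : IsClosed A)
    (hB : IsOpen B) (hAB : A ⊆ B) (hAs : Sym A) :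
    ∃ V : Set (X × X), IsOpen V ∧ Sym V ∧ A ⊆ V ∧ closure V ⊆ B := by
  obtain ⟨V, h1, h2, h3⟩ := normal_exists_closure_subset hA hB hAB
  refine ⟨V ∩ Prod.swap ⁻¹' V, h1.inter (h1.preimage continuous_swap), ?_, ?_, ?_⟩
  · intro x y hxy
    exact ⟨hxy.2, hxy.1⟩
  · intro z hz
    exact ⟨h2 hz, h2 (hAs z.1 z.2 hz)⟩
  · exact (closure_mono inter_subset_left).trans h3

theorem exists_slack {X : Type*} [MetricSpace X] [CompactSpace X] {K V : Set (X × X)}
    (hK : IsClosed K) (hV : IsOpen V) (hKV : K ⊆ V) :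
    ∃ ρ > 0, ∀ x y x' y' : X, (x, y) ∈ K → dist x x' < ρ → dist y y' < ρ → (x', y') ∈ V := by
  obtain ⟨ρ, hρ, h⟩ := hK.isCompact.exists_thickening_subset_open hV hKV
  refine ⟨ρ, hρ, fun x y x' y' hxy h1 h2 => h ?_⟩
  rw [Metric.mem_thickening_iff]
  refine ⟨(x, y), hxy, ?_⟩
  rw [Prod.dist_eq, max_lt_iff]
  rw [dist_comm x x', dist_comm y y'] at *
  exact ⟨h1, h2⟩

theorem exists_off {X : Type*} [MetricSpace X] [CompactSpace X] {S : Set (X × X)}
    (hS : IsClosed S) (hirr : ∀ x, (x, x) ∉ S) :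
    ∃ ρ > 0, ∀ x y : X, dist x y < ρ → (x, y) ∉ S := by
  obtain ⟨ρ, hρ, h⟩ := exists_slack (K := {z : X × X | z.1 = z.2}) (V := Sᶜ)
    (isClosed_eq continuous_fst continuous_snd) hS.isOpen_compl (by
      rintro ⟨x, y⟩ hxy
      have : x = y := hxy
      subst this
      exact hirr x)
  refine ⟨ρ, hρ, fun x y hxy => ?_⟩
  exact h x x x y rfl (by rw [dist_self]; exact hρ) hxy

section

variable {X : Type*} [MetricSpace X] [CompactSpace X] [MeasurableSpace X] [BorelSpace X]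
  (F : X → X) (hFc : Continuous F) (ν : Measure X) [IsProbabilityMeasure ν] (hF : Ergodic F ν)

include hFc hF in
theorem exists_label' {ρ : ℝ} (hρ : 0 < ρ) :
    ∃ n : ℕ, ∃ P : X → Fin n, Measurable P ∧ (∀ i, ν (frontier (P ⁻¹' {i})) = 0) ∧
      ∀ x y, P x = P y → dist x y < ρ := by
  obtain ⟨n, -, P, h1, h2, h3⟩ := exists_label hFc ν hF.toMeasurePreserving hρ
  refine ⟨n, P, h1, fun i => ?_, h2⟩
  have h4 := h3 1 (fun _ => i)
  have h5 : {x : X | ∀ s : Fin 1, P (F^[s] x) = (fun _ => i) s} = P ⁻¹' {i} := by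
    ext x
    simp
  rwa [h5] at h4

theorem exists_len {n : ℕ} (P : X → Fin n) {η : ℝ} (hη : 0 < η) :
    ∃ L : ℕ, 0 < L ∧ ent (law ν F P L) / L ≤ hInf ν F P + η := by
  obtain ⟨L, hL⟩ := exists_lt_of_ciInf_lt
    (show (⨅ L : ℕ, ent (law ν F P (L + 1)) / ((L : ℝ) + 1)) < hInf ν F P + η by
      unfold hInf
      linarith)
  refine ⟨L + 1, Nat.succ_pos L, ?_⟩
  push_cast
  exact hL.le

include hFc hF in
theorem exists_typ_sets {n : ℕ} (P : X → Fin n) (hP : Measurable P)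
    (hPf : ∀ i, ν (frontier (P ⁻¹' {i})) = 0) {L : ℕ} (hL : 0 < L)
    {δ : ℝ} (hδ : 0 < δ) :
    ∃ A : ℕ → Set X, (∀ T, MeasurableSet (A T)) ∧ (∀ T, ν (frontier (A T)) = 0) ∧
      Tendsto (fun T => ν (A T)) atTop (𝓝 1) ∧
      ∀ T, ∀ x ∈ A T, orb F x ∈ Typ P L (law ν F P L) δ 0 T := by
  obtain ⟨A, h1, h2⟩ := exists_packings ν F hF P hP L hL
  refine ⟨fun T => {x | Near P L (law ν F P L) (A T) (orb F x) T (δ * T)}, fun T => ?_,
    fun T => ?_, h2 δ hδ, fun T x hx => ⟨A T, h1 T, ?_⟩⟩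
  · exact measurableSet_near F hFc.measurable P hP L _ _ _ _
  · exact frontier_near ν F hFc hF.toMeasurePreserving P hPf L _ _ _ _
  · have : δ * (T : ℝ) + 0 = δ * T := add_zero _
    rw [this]
    exact hx

theorem tendsto_exp_aux {K c : ℝ} (hc : 0 < c) : ∃ T₀ : ℕ, ∀ T : ℕ, T₀ ≤ T →
    K ≤ Real.exp (c * T) := by
  have h1 : Tendsto (fun T : ℕ => Real.exp (c * T)) atTop atTop :=
    Real.tendsto_exp_atTop.comp (tendsto_natCast_atTop_atTop.const_mul_atTop hc)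
  obtain ⟨T₀, h⟩ := eventually_atTop.1 (h1.eventually_ge_atTop K)
  exact ⟨T₀, h⟩

/-- From an abstract comparison of orbits with typical sequences for one labelling to `Dom`. -/
theorem dom_of_upgrade (hFc : Continuous F) (hF : Ergodic F ν) {n : ℕ} (P : X → Fin n)
    (hP : Measurable P) (S S' : Set (X × X))
    (hslack : ∀ x y x' y', (x, y) ∈ S → P x = P x' → P y = P y' → (x', y') ∈ S')
    (hirr : ∀ x, (x, x) ∉ S') (L : ℕ) (hL : 0 < L) (η : ℝ) (hη : 0 < η)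
    (hent : ent (law ν F P L) / L ≤ hInf ν F P + η / 4) :
    ∃ δ > 0, ∀ (S₀ : Set (X × X)) (b K p : ℝ), 0 ≤ K → (∃ T₀ : ℕ, ∀ T ≥ T₀,
      Leq univ (Conf F S₀ T)
      (Typ P L (law ν F P L) δ b T) (pw S T) (K * Real.exp (-(p * T)))) →
      ∀ p' : ℝ, p' < p - η → Dom F ν S₀ S' p' := by
  obtain ⟨δ, hδ, hup⟩ := upgrade ν F hF P hP S S' hslack hirr L hL η hη hent
  refine ⟨δ, hδ, fun S₀ b K p hK hcomp p' hp' => ?_⟩
  intro n' P' hP' hPf' L' hL' δ' hδ'
  obtain ⟨A, hA1, -, hA2, hA3⟩ := exists_typ_sets F hFc ν hF P' hP' hPf' hL' hδ'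
  obtain ⟨T₁, hT₁⟩ := hup b A hA1 hA2
  obtain ⟨T₂, hT₂⟩ := hcomp
  obtain ⟨T₃, hT₃⟩ := tendsto_exp_aux (K := K) (c := p - η - p') (by linarith)
  refine ⟨max T₁ (max T₂ T₃), fun T hT => ?_⟩
  have h1 := hT₁ T ((le_max_left _ _).trans hT)
  have h2 := hT₂ T (((le_max_left _ _).trans (le_max_right _ _)).trans hT)
  have h3 := hT₃ T (((le_max_right _ _).trans (le_max_right _ _)).trans hT)
  have h4 : Leq (A T) (Conf F S' T) (Typ P' L' (law ν F P' L') δ' 0 T) (pw S' T) 1 :=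
    Leq.of_map (orb F) (hA3 T) (fun x _ y _ h => h) (fun ξ _ => not_pw hirr T ξ)
  have h5 := (h2.trans (by positivity) h1).trans (by positivity) h4
  refine h5.mono ?_
  rw [mul_one, mul_assoc, ← Real.exp_add]
  calc K * Real.exp (-(p * T) + η * T)
      ≤ Real.exp ((p - η - p') * T) * Real.exp (-(p * T) + η * T) :=
        mul_le_mul_of_nonneg_right h3 (Real.exp_pos _).le
    _ = Real.exp (-(p' * T)) := by
        rw [← Real.exp_add]
        congr 1
        ring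

theorem compl_toReal_le {Y Z : Set X} (hZ : MeasurableSet Z) {ε : ℝ} (hε : 0 < ε)
    (hZf : ν (frontier Z) = 0) (hZ1 : 1 - ENNReal.ofReal ε < ν Z)
    (hY : (ν (closure Y)).toReal ≤ ε) :
    (ν (interior Z \ closure Y)ᶜ).toReal ≤ 2 * ε := by
  have h1 : (interior Z \ closure Y)ᶜ ⊆ Zᶜ ∪ frontier Z ∪ closure Y := by
    intro x hx
    by_cases h : x ∈ closure Y
    · exact Or.inr h
    · left
      have h2 : x ∉ interior Z := fun h2 => hx ⟨h2, h⟩
      by_cases h3 : x ∈ Z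
      · right
        exact ⟨subset_closure h3, h2⟩
      · exact Or.inl h3
  have h2 : ν Zᶜ ≤ ENNReal.ofReal ε := by
    rw [prob_compl_eq_one_sub hZ]
    rw [tsub_le_iff_right] at *
    have := hZ1.le
    rw [tsub_le_iff_right] at this
    rwa [add_comm] at this
  have h3 : ν (interior Z \ closure Y)ᶜ ≤ ENNReal.ofReal ε + ν (closure Y) := by
    refine (measure_mono h1).trans ((measure_union_le _ _).trans ?_)
    refine add_le_add ((measure_union_le _ _).trans ?_) le_rfl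
    rw [hZf, add_zero]
    exact h2
  have h4 := ENNReal.toReal_mono (by simp [measure_ne_top]) h3
  rw [ENNReal.toReal_add ENNReal.ofReal_ne_top (measure_ne_top _ _),
    ENNReal.toReal_ofReal hε.le] at h4
  linarith

/-- A compact set of large measure inside an open set. -/
theorem exists_inner {O : Set X} (hO : IsOpen O) {c ε : ℝ} (hε : 0 < ε)
    (h : (ν Oᶜ).toReal ≤ c) :
    ∃ K : Set X, IsClosed K ∧ K ⊆ O ∧ (ν Kᶜ).toReal ≤ c + ε := by
  have h1 : ν O ≠ ⊤ := measure_ne_top _ _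
  obtain ⟨K, hKO, hK, hlt⟩ := hO.measurableSet.exists_isClosed_sdiff_lt (μ := ν) h1
    (ε := ENNReal.ofReal ε) (by simpa using hε)
  refine ⟨K, hK, hKO, ?_⟩
  have h2 : Kᶜ ⊆ Oᶜ ∪ (O \ K) := by
    intro x hx
    by_cases h3 : x ∈ O
    · exact Or.inr ⟨h3, hx⟩
    · exact Or.inl h3
  have h3 := ENNReal.toReal_mono (by simp [measure_ne_top])
    ((measure_mono h2).trans (measure_union_le _ _) : ν Kᶜ ≤ ν Oᶜ + ν (O \ K))
  rw [ENNReal.toReal_add (measure_ne_top _ _) (measure_ne_top _ _)] at h3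
  have h4 := ENNReal.toReal_mono ENNReal.ofReal_ne_top hlt.le
  rw [ENNReal.toReal_ofReal hε.le] at h4
  linarith

end

end Pool.Agent.Helper38.Weiss
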