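import Pool.Agent.Helper38.Weiss.Ins

open Set Filter Topology MeasureTheory

namespace Pool.Agent.Helper38.Weiss

variable {X : Type*} [MetricSpace X] [CompactSpace X] [MeasurableSpace X] [BorelSpace X]
  (F : X → X) (hFc : Continuous F) (ν : Measure X) [IsProbabilityMeasure ν] (hF : Ergodic F ν)

/-- The numerical choice of `γ`. -/
theorem exists_gamma {p ε δ : ℝ} (hp : 0 < p) (hε : 0 < ε) (hδ : 0 < δ) :
    ∃ γ : ℝ, 0 < γ ∧ 8 * γ ≤ δ ∧ ∀ β : ℝ, 3 / 16 * (p * ε) ≤ β →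
      2 * (p * ε / 16) ≤ β * (1 - 2 * γ) - 2 * γ * Real.log 2 := by
  have hpe : 0 < p * ε := mul_pos hp hε
  refine ⟨min (δ / 8) (min (1 / 4) ((p * ε / 16) / (3 / 8 * (p * ε) + 2))), ?_, ?_, ?_⟩
  · positivity
  · have := min_le_left (δ / 8) (min (1 / 4) ((p * ε / 16) / (3 / 8 * (p * ε) + 2)))
    linarith
  · intro β hβ
    set γ := min (δ / 8) (min (1 / 4) ((p * ε / 16) / (3 / 8 * (p * ε) + 2))) with hγ
    have h1 : γ ≤ 1 / 4 := (min_le_right _ _).trans (min_le_left _ _)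
    have h2 : γ ≤ (p * ε / 16) / (3 / 8 * (p * ε) + 2) := (min_le_right _ _).trans (min_le_right _ _)
    have h3 : 0 < γ := by positivity
    rw [le_div_iff₀ (by positivity)] at h2
    have hlog : Real.log 2 ≤ 1 := by
      have := Real.log_two_lt_d9
      linarith
    have hlog0 : 0 ≤ Real.log 2 := Real.log_nonneg (by norm_num)
    have h4 : 3 / 16 * (p * ε) * (1 - 2 * γ) ≤ β * (1 - 2 * γ) :=
      mul_le_mul_of_nonneg_right hβ (by linarith)
    have h5 : 2 * γ * Real.log 2 ≤ 2 * γ := by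
      have := mul_le_mul_of_nonneg_left hlog h3.le
      linarith
    nlinarith

theorem beta_bound {p ε : ℝ} (hp : 0 < p) (hε : 0 < ε) {r N : ℕ} (hN : 0 < N)
    (hrN : ε / 4 * N ≤ r) (hlog : 16 * Real.log 2 ≤ p * ε * N) :
    3 / 16 * (p * ε) ≤ (p * r - Real.log 2) / N := by
  have hN' : (0 : ℝ) < N := by exact_mod_cast hN
  rw [le_div_iff₀ hN']
  have h1 : p * (ε / 4 * N) ≤ p * r := mul_le_mul_of_nonneg_left hrN hp.le
  linarith

include hFc hF in
/-- First half: the fine pair. -/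
theorem fine_pair (hsmall : ∀ ε > 0, ∃ B : Set X, MeasurableSet B ∧ ν (frontier B) = 0 ∧
    ν B ≠ 0 ∧ ν B < ε) {S S' Sf V U : Set (X × X)} (hSS' : S ⊆ S') (hS'f : S' ⊆ Sf)
    (hfV : closure Sf ⊆ V) (hV : IsOpen V) (hVU : closure V ⊆ U)
    (hirr : ∀ x, (x, x) ∉ U) {p : ℝ} (hp : 0 < p)
    (hdom : Dom F ν S S' p) {ε : ℝ} (hε : 0 < ε) (hε1 : ε ≤ 1) :
    ∃ O : Set X, IsOpen O ∧ (ν Oᶜ).toReal ≤ 2 * ε ∧
      Dom F ν (S ∪ (Sf ∩ O ×ˢ O)) (closure V) (p * ε / 32) := by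
  classical
  have hpe : 0 < p * ε := mul_pos hp hε
  -- the labelling
  obtain ⟨ρ, hρ, hslack⟩ := exists_slack isClosed_closure hV hfV
  obtain ⟨n, P, hP, hPf, hPd⟩ := exists_label' F hFc ν hF hρ
  obtain ⟨L, hL, hLent⟩ := exists_len F ν P (show 0 < p * ε / 64 / 4 by positivity)
  have hVirr : ∀ x, (x, x) ∉ closure V := fun x hx => hirr x (hVU hx)
  have hfirr : ∀ x, (x, x) ∉ Sf := fun x hx => hVirr x (subset_closure (hfV (subset_closure hx)))
  obtain ⟨δ, hδ, hup⟩ := dom_of_upgrade F ν hFc hF P hP Sf (closure V)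
    (by
      intro x y x' y' hxy hx hy
      exact subset_closure (hslack x y x' y' (subset_closure hxy) (hPd _ _ hx) (hPd _ _ hy)))
    hVirr L hL (p * ε / 64) (by positivity) hLent
  have hfam : Fam (Typ P L (law ν F P L)) :=
    fam_typ P L _ (law_nonneg ν F P L) (sum_law ν F hFc.measurable P hP L)
  -- the typical sets
  obtain ⟨G, hGm, hGf, hG1, hG⟩ := exists_typ_sets F hFc ν hF P hP hPf hL
    (show 0 < δ / 4 by positivity)
  -- the comparison
  obtain ⟨T₀, hT₀⟩ := hdom n P hP hPf L hL (δ / 4) (by positivity)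
  -- the marker
  obtain ⟨γ, hγ, hγδ, hγβ⟩ := exists_gamma hp hε hδ
  obtain ⟨m₀, hm₀⟩ := exists_nat_ge (16 * Real.log 2 / (p * ε))
  obtain ⟨r, N, hr, hrN, hεN, Y, D, hYm, hDm, hYf, hDf, hD, hDdisj, hYε, hDγ⟩ :=
    marker ν F hFc hF hsmall G hGm hGf hG1 ε hε hε1 γ hγ (max T₀ m₀)
  have hN0 : 0 < N := by omega
  have hlogN : 16 * Real.log 2 ≤ p * ε * N := by
    rw [div_le_iff₀ hpe] at hm₀
    have h1 : (m₀ : ℝ) ≤ N := by
      have : m₀ ≤ N := ((le_max_right _ _).trans hr).trans hrN.le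
      exact_mod_cast this
    have h2 := mul_le_mul_of_nonneg_right h1 hpe.le
    linarith
  have hβ := beta_bound hp hε hN0 hεN hlogN
  have hβ0 : 0 ≤ (p * r - Real.log 2) / N := le_trans (by positivity) hβ
  obtain ⟨W₀, hW₀⟩ := core_i F S Sf (hSS'.trans hS'f) hfirr (Typ P L (law ν F P L)) hfam δ p hδ
    hp (max T₀ m₀) (by
      intro ρ' hρ'
      refine ((hT₀ ρ' ((le_max_left _ _).trans hρ')).trans (by positivity)
        (Leq.incl (V := Typ P L (law ν F P L) (δ / 4) 0 ρ') (s := pw Sf ρ')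
          (Subset.refl _) ?_)).mono (by rw [mul_one])
      rintro x - y - ⟨t, ht, h⟩
      exact ⟨t, ht, hS'f h⟩) r N hr hrN D (closure Y)
    (fun x hx j hj => subset_closure ((hD x hx).1 j hj))
    (by
      intro x hx
      exact hG _ _ (hD x hx).2) (p * ε / 16) γ _ (by positivity)
    (by nlinarith) hβ0 rfl hγ hγδ (hγβ _ hβ)
  -- the zone
  obtain ⟨Z, hZm, hZf, hZ1, hZ⟩ := zone ν F hFc hF N hN0 D hDm hDf hDdisj γ hγ hDγ
  have h1 : ∀ᶠ W in atTop, 1 - ENNReal.ofReal ε < ν (Z W) := by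
    refine hZ1.eventually_const_lt ?_
    exact ENNReal.sub_lt_self ENNReal.one_ne_top one_ne_zero (by simpa using hε)
  obtain ⟨W, hW1, hW2⟩ := (h1.and (eventually_ge_atTop W₀)).exists
  have hYcl : (ν (closure Y)).toReal ≤ ε := by
    refine le_trans (ENNReal.toReal_mono (measure_ne_top _ _) ?_) hYε
    have h2 : closure Y ⊆ Y ∪ frontier Y := by
      rw [← closure_eq_self_union_frontier]
    refine (measure_mono h2).trans ((measure_union_le _ _).trans ?_)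
    rw [hYf, add_zero]
  refine ⟨interior (Z W) \ closure Y, isOpen_interior.sdiff isClosed_closure,
    compl_toReal_le ν (hZm W) hε (hZf W) hW1 hYcl, ?_⟩
  obtain ⟨K, b₀, hK⟩ := hW₀ W hW2 (interior (Z W) \ closure Y) (fun x hx => hx.2)
    (fun x hx => hZ W x (interior_subset hx.1))
  refine hup _ b₀ (max K 0) (p * ε / 16) (le_max_right _ _) ⟨0, fun T _ => (hK T).mono ?_⟩ _ ?_
  · exact mul_le_mul_of_nonneg_right (le_max_left _ _) (Real.exp_pos _).le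
  · linarith

include hFc hF in
/-- Second half: the coarse pair. -/
theorem coarse_pair {S S₀ S' V : Set (X × X)} (hS₀ : S₀ ⊆ S) (hS' : IsClosed S') {p : ℝ}
    (hp : 0 < p) (hdom : Dom F ν S S' p) {M : ℕ} (κ : X → Fin M)
    (hκ : ∀ x y, κ x = κ y → (x, y) ∉ S') {ε₀ ε : ℝ}
    (hcore : ∀ (n : ℕ) (P : X → Fin n), Measurable P → ∀ L > 0, ∀ (δ : ℝ), 0 ≤ δ →
      ∀ (κ : X → Fin M) (S' : Set (X × X)) (O : Set X), (∀ x y, κ x = κ y → (x, y) ∉ S') →
        (ν {x | ¬ P ⁻¹' {P x} ⊆ O}).toReal + 2 * δ ≤ ε₀ → ∀ T : ℕ,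
        Leq (Typ P L (law ν F P L) δ 0 T) (pw S' T) (Typ P L (law ν F P L) δ 0 T)
          (pw (S' ∩ O ×ˢ O) T) (Real.exp (p / 2 * T))) (hε : 0 < ε) (hε₀ : 4 * ε ≤ ε₀)
    {K O : Set X} (hK : IsClosed K) (hO : IsOpen O) (hKO : K ⊆ O) (hKν : (ν Kᶜ).toReal ≤ 3 * ε)
    (hV : IsOpen V) (hSV : S' ∩ (closure O ×ˢ closure O) ⊆ V) (hirr : ∀ x, (x, x) ∉ closure V) :
    Dom F ν S₀ (closure V) (p / 4) := by
  classical
  obtain ⟨ρ₁, hρ₁, hslack⟩ := exists_slack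
    (hS'.inter (isClosed_closure.prod isClosed_closure)) hV hSV
  obtain ⟨ρ₂, hρ₂, hthick⟩ := hK.isCompact.exists_thickening_subset_open hO hKO
  obtain ⟨n, P, hP, hPf, hPd⟩ := exists_label' F hFc ν hF (lt_min hρ₁ hρ₂)
  obtain ⟨L, hL, hLent⟩ := exists_len F ν P (show 0 < p / 8 / 4 by positivity)
  obtain ⟨δ, hδ, hup⟩ := dom_of_upgrade F ν hFc hF P hP (S' ∩ O ×ˢ O) (closure V)
    (by
      rintro x y x' y' ⟨h1, h2⟩ hx hy
      refine subset_closure (hslack x y x' y' ⟨h1, ?_⟩ ((hPd _ _ hx).trans_le (min_le_left _ _))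
        ((hPd _ _ hy).trans_le (min_le_left _ _)))
      exact ⟨subset_closure h2.1, subset_closure h2.2⟩)
    hirr L hL (p / 8) (by positivity) hLent
  have hfam : Fam (Typ P L (law ν F P L)) :=
    fam_typ P L _ (law_nonneg ν F P L) (sum_law ν F hFc.measurable P hP L)
  set δ₁ := min δ (ε / 2) with hδ₁
  have hδ₁0 : 0 < δ₁ := lt_min hδ (by positivity)
  obtain ⟨T₀, hT₀⟩ := hdom n P hP hPf L hL δ₁ hδ₁0
  have hirr' : ∀ x, (x, x) ∉ S' := fun x => hκ x x rfl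
  have hbad : (ν {x | ¬ P ⁻¹' {P x} ⊆ O}).toReal + 2 * δ₁ ≤ ε₀ := by
    have h1 : {x | ¬ P ⁻¹' {P x} ⊆ O} ⊆ Kᶜ := by
      intro x hx hxK
      apply hx
      intro y hy
      apply hthick
      rw [Metric.mem_thickening_iff]
      exact ⟨x, hxK, (hPd y x hy).trans_le (min_le_right _ _)⟩
    have h2 := ENNReal.toReal_mono (measure_ne_top ν _) (measure_mono h1)
    have h3 : δ₁ ≤ ε / 2 := min_le_right _ _
    linarith
  refine hup S₀ 0 1 (p - p / 2) zero_le_one ⟨T₀, fun T hT => ?_⟩ _ ?_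
  · have h1 : Leq univ (Conf F S₀ T) univ (Conf F S T) 1 := by
      refine Leq.incl (Subset.refl _) ?_
      rintro x - y - ⟨t, ht, h⟩
      exact ⟨t, ht, hS₀ h⟩
    have h2 := hT₀ T hT
    have h3 := hcore n P hP L hL δ₁ hδ₁0.le κ S' O hκ hbad T
    have h4 : Leq (Typ P L (law ν F P L) δ₁ 0 T) (pw (S' ∩ O ×ˢ O) T)
        (Typ P L (law ν F P L) δ 0 T) (pw (S' ∩ O ×ˢ O) T) 1 := by
      refine Leq.incl (hfam.mono ?_) (fun _ _ _ _ h => h)
      have : δ₁ * (T : ℝ) ≤ δ * T := mul_le_mul_of_nonneg_right (min_le_left _ _) (by positivity)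
      linarith
    have h5 := ((h1.trans zero_le_one h2).trans (by positivity) h3).trans (by positivity) h4
    refine h5.mono ?_
    rw [one_mul, mul_one, one_mul, ← Real.exp_add]
    refine Real.exp_le_exp.2 (le_of_eq ?_)
    ring
  · linarith

/-- **Insertion.** -/
theorem insertion' (hFc : Continuous F) (hF : Ergodic F ν)
    (hsmall : ∀ ε > 0, ∃ B : Set X, MeasurableSet B ∧ ν (frontier B) = 0 ∧ ν B ≠ 0 ∧ ν B < ε)
    (C U : Set (X × X)) (hC : IsClosed C) (hU : IsOpen U) (hCU : C ⊆ U) (h : Lk F ν C U) :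
    ∃ v : Set (X × X), IsOpen v ∧ C ⊆ v ∧ closure v ⊆ U ∧ Lk F ν C v ∧
      Lk F ν (closure v) U := by
  classical
  obtain ⟨hCs, hUs, hUirr, S, S', hS, hS', hSs, hS's, hCS, hSS', hS'U, p, hp, hdom⟩ := h
  -- labels off `S'`
  have hS'irr : ∀ x, (x, x) ∉ S' := fun x hx => hUirr x (hS'U hx)
  obtain ⟨ρ, hρ, hoff⟩ := exists_off hS' hS'irr
  obtain ⟨M, κ, -, -, hκd⟩ := exists_label' F hFc ν hF hρ
  have hκ : ∀ x y, κ x = κ y → (x, y) ∉ S' := fun x y hxy => hoff x y (hκd x y hxy)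
  obtain ⟨ε₀, hε₀, hcore⟩ := core_ii ν F hF.toMeasurePreserving p hp M
  -- the sets
  obtain ⟨Sc, hSc, hScs, hCSc, hScS⟩ := sym_between hC hS hCS hCs
  obtain ⟨Sf, hSf, hSfs, hS'Sf, hSfU⟩ := sym_between hS' hU hS'U hS's
  obtain ⟨Sg, hSg, hSgs, hSfSg, hSgU⟩ := sym_between isClosed_closure hU hSfU hSfs.closure
  set ε := min 1 (ε₀ / 4) with hεdef
  have hε : 0 < ε := lt_min one_pos (by positivity)
  obtain ⟨O, hO, hOν, hfine⟩ := fine_pair F hFc ν hF hsmall hSS' hS'Sf hSfSg hSg hSgU hUirr hp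
    hdom hε (min_le_left _ _)
  set Nb : Set (X × X) := S ∪ (Sf ∩ O ×ˢ O) with hNb
  have hNbo : IsOpen Nb := hS.union (hSf.inter (hO.prod hO))
  have hNbU : Nb ⊆ U := by
    rintro z (hz | hz)
    · exact hS'U (hSS' hz)
    · exact hSfU (subset_closure hz.1)
  obtain ⟨K, hK, hKO, hKν⟩ := exists_inner ν hO hε hOν
  obtain ⟨O₀, hO₀, hKO₀, hO₀O⟩ := normal_exists_closure_subset hK hO hKO
  set N₀ : Set (X × X) := closure Sc ∪ (S' ∩ (closure O₀ ×ˢ closure O₀)) with hN₀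
  have hN₀c : IsClosed N₀ :=
    isClosed_closure.union (hS'.inter (isClosed_closure.prod isClosed_closure))
  have hN₀s : Sym N₀ := by
    rintro x y (h | h)
    · exact Or.inl (hScs.closure x y h)
    · exact Or.inr ⟨hS's x y h.1, h.2.2, h.2.1⟩
  have hN₀N : N₀ ⊆ Nb := by
    rintro z (hz | hz)
    · exact Or.inl (hScS hz)
    · exact Or.inr ⟨hS'Sf hz.1, hO₀O hz.2.1, hO₀O hz.2.2⟩
  obtain ⟨v₁, hv₁, hv₁s, hN₀v, hv₁N⟩ := sym_between hN₀c hNbo hN₀N hN₀s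
  obtain ⟨v, hv, hvs, hv₁v, hvN⟩ := sym_between isClosed_closure hNbo hv₁N hv₁s.closure
  have hSc1 : Sc ⊆ closure v₁ := fun z hz => subset_closure (hN₀v (Or.inl (subset_closure hz)))
  have hvU : closure v ⊆ U := hvN.trans hNbU
  have hvirr : ∀ x, (x, x) ∉ v := fun x hx => hUirr x (hvU (subset_closure hx))
  refine ⟨v, hv, fun z hz => hv₁v (hSc1 (hCSc hz)), hvU, ?_, ?_⟩
  · refine ⟨hCs, hvs, hvirr, Sc, closure v₁, hSc, isClosed_closure, hScs, hv₁s.closure, hCSc,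
      hSc1, hv₁v, p / 4, by positivity, ?_⟩
    refine coarse_pair F hFc ν hF (S := S) (fun z hz => hScS (subset_closure hz)) hS' hp hdom κ hκ
      hcore hε ?_ hK hO₀ hKO₀ (by linarith) hv₁ (fun z hz => hN₀v (Or.inr hz))
      (fun x hx => hvirr x (hv₁v hx))
    have := min_le_right (1 : ℝ) (ε₀ / 4)
    linarith
  · refine ⟨hvs.closure, hUs, hUirr, Nb, closure Sg, hNbo, isClosed_closure, ?_, hSgs.closure,
      hvN, ?_, hSgU, p * ε / 32, by positivity, hfine⟩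
    · rintro x y (h | h)
      · exact Or.inl (hSs x y h)
      · exact Or.inr ⟨hSfs x y h.1, h.2.2, h.2.1⟩
    · rintro z (hz | hz)
      · exact subset_closure (hSfSg (subset_closure (hS'Sf (hSS' hz))))
      · exact subset_closure (hSfSg (subset_closure hz.1))

end Pool.Agent.Helper38.Weiss
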