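import Pool.Agent.Helper38.Weiss.Api

namespace Pool.Agent.Helper38.Weiss

/-- The product of the system with the full shift. -/
def skew {X : Type*} (F : X → X) (n : ℕ) : X × (ℕ → Fin n) → X × (ℕ → Fin n) :=
  fun z => (F z.1, fun t => z.2 (t + 1))

end Pool.Agent.Helper38.Weiss
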