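import Pool.Agent.Helper38.Weiss.Label
import Pool.Agent.Helper38.Weiss.Skew
import Pool.Agent.Helper88.Weiss.Ent
import Pool.Agent.Helper88.Weiss.ErgSel
import Pool.Agent.Helper23.Weiss.WF
import Pool.Agent.Helper23.Weiss.WJ5
import Pool.Agent.Helper36.Weiss.Marker
import Pool.Agent.Helper22.Weiss.CoreI
import Pool.Agent.Helper77.Weiss.CoreII
import Pool.Agent.Helper97.Weiss.Threshold
import Pool.Agent.Helper27.Weiss.Sep
import Pool.Agent.Helper10.Weiss.WS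
import Pool.Agent.Helper10.Weiss.WB
import Pool.Agent.Helper50.Weiss.Cover
import Pool.Agent.Helper49.Weiss.Main
import Pool.Agent.Helper79.Weiss.Mis
import Pool.Agent.Helper11.Weiss.Count
import Pool.Agent.Helper51.Weiss.UC
import Pool.Agent.Helper51.Weiss.Names
import Pool.Agent.Helper42.Weiss.WU

/-! The ingredients, collected. -/

open Set Filter Topology MeasureTheory

namespace Pool.Agent.Helper38.Weiss

alias exists_packings := Pool.Agent.Helper49.Weiss.exists_packings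
alias measurableSet_near := Pool.Agent.Helper49.Weiss.measurableSet_near
alias frontier_near := Pool.Agent.Helper49.Weiss.frontier_near
alias zone := Pool.Agent.Helper49.Weiss.zone
alias marker := Pool.Agent.Helper36.Weiss.marker
alias core_i := Pool.Agent.Helper22.Weiss.core_i
alias core_ii := Pool.Agent.Helper77.Weiss.core_ii
alias fam_typ := Pool.Agent.Helper97.Weiss.fam_typ
alias exists_threshold := Pool.Agent.Helper97.Weiss.exists_threshold
alias law_nonneg := Pool.Agent.Helper88.Weiss.law_nonneg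
alias sum_law := Pool.Agent.Helper88.Weiss.sum_law
alias plateau := Pool.Agent.Helper50.Weiss.plateau
alias upgrade := Pool.Agent.Helper42.Weiss.WU.upgrade

theorem lk_sep {X : Type*} [MetricSpace X] [CompactSpace X] [MeasurableSpace X] [BorelSpace X]
    (F : X → X) (hFc : Continuous F) (ν : Measure X) [IsProbabilityMeasure ν] (hF : Ergodic F ν)
    (C U : Set (X × X)) (hU : IsOpen U) (hCU : Lk F ν C U) (η : ℝ) (hη : 0 < η) :
    ∃ N : ℕ, ∀ T ≥ N, ∃ T₀ : ℕ, ∀ T' ≥ T₀, ∀ E : Finset X, E.Nonempty →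
      (∀ x ∈ E, ∀ y ∈ E, x ≠ y → Conf F C T x y) → ∃ E' : Finset X, E'.Nonempty ∧
        (∀ x ∈ E', ∀ y ∈ E', x ≠ y → Conf F U T' x y) ∧
        Real.log E.card / T - η ≤ Real.log E'.card / T' :=
  Pool.Agent.Helper27.Weiss.lk_sep
    (fun ν _ F hF {_} P hP S S' hs hi L hL η hη he =>
      upgrade ν F hF P hP S S' hs hi L hL η hη he)
    (fun {_} P L q hq hq1 => fam_typ P L q hq hq1) F hFc ν hF C U hU hCU η hη

theorem base_measure {X : Type*} [MetricSpace X] [CompactSpace X] [MeasurableSpace X]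
    [BorelSpace X] (F : X → X) (hFc : Continuous F) (ε₁ : ℝ) (hε₁ : 0 < ε₁) (h₀ h₁ : ℝ)
    (h01 : h₀ < h₁) (hsep : ∀ T : ℕ, 0 < T → ∃ E : Finset X, (∀ x ∈ E, ∀ y ∈ E, x ≠ y →
      ∃ t < T, ε₁ ≤ dist (F^[t] x) (F^[t] y)) ∧ Real.exp (h₁ * T) ≤ E.card) :
    ∃ ν : Measure X, IsProbabilityMeasure ν ∧ Ergodic F ν ∧ ∃ S' : Set (X × X), IsClosed S' ∧
      Sym S' ∧ (∀ x, (x, x) ∉ S') ∧ ∀ A : ℕ → Set X, (∀ T, MeasurableSet (A T)) →
        Tendsto (fun T => ν (A T)) atTop (𝓝 1) → ∃ T₀ : ℕ, ∀ T ≥ T₀, ∃ E : Finset X,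
          (∀ x ∈ E, x ∈ A T) ∧ (∀ x ∈ E, ∀ y ∈ E, x ≠ y → Conf F S' T x y) ∧
          Real.exp (h₀ * T) ≤ E.card :=
  Pool.Agent.Helper23.Weiss.base_measure_of F
    (fun ε₁ hε₁ h₁ hs => Pool.Agent.Helper79.Weiss.misiurewicz F hFc ε₁ hε₁ h₁ hs)
    (fun n θ hθ => by
      obtain ⟨κ, hκ, h⟩ := Pool.Agent.Helper11.Weiss.base_count n θ hθ
      exact ⟨κ, hκ, fun K h1 h2 m h3 h4 B h5 h6 h7 A h8 h9 =>
        h F hFc K h1 h2 m h3 h4 B h5 h6 h7 A h8 h9⟩)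
    hFc ε₁ hε₁ h₀ h₁ h01 hsep

theorem base_lk {X : Type*} [MetricSpace X] [CompactSpace X] [Nonempty X] [MeasurableSpace X]
    [BorelSpace X] (F : X → X) (hFc : Continuous F) (ε₀ ε : ℝ) (hε₀ : 0 < ε₀) (hε : 0 < ε)
    (h : covR F ε₀ < covR F ε) :
    ∃ ν : Measure X, IsProbabilityMeasure ν ∧ Ergodic F ν ∧
      (∀ ε > 0, ∃ B : Set X, MeasurableSet B ∧ ν (frontier B) = 0 ∧ ν B ≠ 0 ∧ ν B < ε) ∧
      ∃ ρ > 0, ρ < ε₀ ∧ Lk F ν {z | 2 * ε₀ ≤ dist z.1 z.2} {z | ρ < dist z.1 z.2} :=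
  Pool.Agent.Helper10.Weiss.base_lk_of F hFc ε₀ ε hε₀ hε h
    (fun κ hκ => Pool.Agent.Helper50.Weiss.covN_le F hFc ε₀ hε₀ κ hκ)
    (fun T hT => Pool.Agent.Helper50.Weiss.sep_ge F hFc ε hε T hT)
    (Pool.Agent.Helper50.Weiss.covR_nonneg F ε₀)
    (fun ν _ hF {_} P hP L hL => exists_packings ν F hF P hP L hL)
    (fun {_} P hP L q A T c => measurableSet_near F hFc.measurable P hP L q A T c)
    (fun ε₁ hε₁ h₀ h₁ h01 hsep => base_measure F hFc ε₁ hε₁ h₀ h₁ h01 hsep)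

end Pool.Agent.Helper38.Weiss
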